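import Mathlib

namespace Pool.Agent.Results.MP_1c393c_co.Brooms

open SimpleGraph Finset

variable {V W : Type}

/-- proper edge colouring (only the values on edges matter) -/
def Proper (G : SimpleGraph V) (c : Sym2 V → ℕ) : Prop :=
  ∀ e ∈ G.edgeSet, ∀ f ∈ G.edgeSet, e ≠ f → (∃ v, v ∈ e ∧ v ∈ f) → c e ≠ c f

/-- number of colours used -/
noncomputable def used (G : SimpleGraph V) (c : Sym2 V → ℕ) : ℕ := (c '' G.edgeSet).ncard

noncomputable def chromIndex (G : SimpleGraph V) : ℕ := sInf {m | ∃ c, Proper G c ∧ used G c = m}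

def Rainbow (H : SimpleGraph W) (G : SimpleGraph V) (c : Sym2 V → ℕ) : Prop :=
  ∃ f : W → V, Function.Injective f ∧ (∀ a b, H.Adj a b → G.Adj (f a) (f b)) ∧
    Set.InjOn (fun e => c (Sym2.map f e)) H.edgeSet

def Witness (H : SimpleGraph W) (G : SimpleGraph V) : Prop :=
  (∀ c, Proper G c → used G c = chromIndex G → Rainbow H G c) ∧ ∃ c, Proper G c ∧ ¬ Rainbow H G c

def broom (d : ℕ) : SimpleGraph (Fin (d + 2)) where
  Adj a b := (a.val = 0 ∧ 1 ≤ b.val ∧ b.val ≤ d) ∨ (b.val = 0 ∧ 1 ≤ a.val ∧ a.val ≤ d) ∨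
    (a.val = 1 ∧ b.val = d + 1 ∧ 1 ≤ d) ∨ (b.val = 1 ∧ a.val = d + 1 ∧ 1 ≤ d)
  symm := ⟨fun a b h => by tauto⟩
  loopless := ⟨fun a h => by omega⟩

def part (q u : ℕ) : ℕ := if u < q then 0 else if u < 2 * q then 1 else 2

def K3 (q : ℕ) : SimpleGraph (Fin (3 * q)) where
  Adj a b := part q a ≠ part q b
  symm := ⟨fun _ _ h => h.symm⟩
  loopless := ⟨fun _ h => h rfl⟩

instance (q : ℕ) : DecidableRel (K3 q).Adj := fun a b => inferInstanceAs (Decidable (part q a ≠ part q b))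

theorem proper_iff {G : SimpleGraph V} {c : Sym2 V → ℕ} :
    Proper G c ↔ ∀ u v w, G.Adj u v → G.Adj u w → c s(u, v) = c s(u, w) → v = w := by
  constructor
  · intro h u v w h1 h2 e
    by_contra hne
    exact h _ h1 _ h2 (fun t => hne (Sym2.congr_right.1 t)) ⟨u, by simp, by simp⟩ e
  · rintro h e he f hf hne ⟨u, hu, hu'⟩ hc
    obtain ⟨v, rfl⟩ := Sym2.mem_iff_exists.1 hu
    obtain ⟨w, rfl⟩ := Sym2.mem_iff_exists.1 hu'
    exact hne (by rw [h u v w he hf hc])

theorem deg (q : ℕ) (u : Fin (3 * q)) : (univ.filter ((K3 q).Adj u)).card = 2 * q := by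
  rw [← card_range (2 * q)]
  refine card_bij (fun v _ => if part q v < part q u then v.val else v.val - q) ?_ ?_ ?_
  · intro v hv
    have h : part q u ≠ part q v := (mem_filter.1 hv).2
    have := v.2; have := u.2
    simp only [mem_range, part] at h ⊢; split_ifs at h ⊢ <;> omega
  · intro v hv w hw e
    have h : part q u ≠ part q v := (mem_filter.1 hv).2
    have h' : part q u ≠ part q w := (mem_filter.1 hw).2
    have := v.2; have := u.2; have := w.2
    apply Fin.ext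
    simp only [part] at h h' e; split_ifs at h h' e <;> omega
  · intro b hb
    have hb := mem_range.1 hb
    have := u.2
    refine ⟨⟨if part q b < part q u then b else b + q, by split_ifs <;> omega⟩, mem_filter.2 ⟨mem_univ _, ?_⟩, ?_⟩
    · show part q u ≠ part q _
      simp only [part]; split_ifs <;> omega
    · simp only [part]; split_ifs <;> omega

def rs (q u : ℕ) : ℕ := if u < q then u else if u < 2 * q then u - q else u - 2 * q
def md (q s : ℕ) : ℕ := if s < q then s else s - q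
def lat (q : ℕ) : Sym2 (Fin (3 * q)) → ℕ :=
  Sym2.lift ⟨fun a b => 4 * md q (rs q a + rs q b) + (part q a + part q b), fun a b => by
    simp only [add_comm]⟩

theorem lat_proper (q : ℕ) : Proper (K3 q) (lat q) := proper_iff.2 fun u v w h1 h2 e => by
  have h1 : part q u ≠ part q v := h1
  have h2 : part q u ≠ part q w := h2
  have := v.2; have := u.2; have := w.2
  apply Fin.ext
  simp only [lat, Sym2.lift_mk, part, rs, md] at h1 h2 e
  split_ifs at h1 h2 e <;> omega

theorem lat_ex (q : ℕ) (u x w : Fin (3 * q)) (h1 : part q u = part q x) (h2 : part q x ≠ part q w) :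
    ∃ y, (K3 q).Adj u y ∧ lat q s(u, y) = lat q s(w, x) := by
  have r1 : ∀ u : Fin (3 * q), rs q u < q := fun u => by
    have := u.2; simp only [rs]; split_ifs <;> omega
  have r2 : ∀ t < q, w - rs q w + t < 3 * q ∧ part q (w - rs q w + t) = part q w ∧ rs q (w - rs q w + t) = t := by
    intro t ht
    have := w.2
    have e : w - rs q w = 0 ∧ w < q ∨ w - rs q w = q ∧ q ≤ w ∧ w < 2 * q ∨ w - rs q w = 2 * q ∧ 2 * q ≤ w := by
      simp only [rs]; split_ifs <;> omega
    generalize w - rs q w = z at e ⊢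
    simp only [part, rs]; split_ifs <;> omega
  have r3 : ∀ a < q, ∀ b < q, ∀ c < q, md q (md q (b + c) + q - a) < q ∧
      md q (a + md q (md q (b + c) + q - a)) = md q (c + b) := by
    intro a ha b hb c hc
    simp only [md]; split_ifs <;> omega
  obtain ⟨t1, t2⟩ := r3 _ (r1 u) _ (r1 x) _ (r1 w)
  obtain ⟨s1, s2, s3⟩ := r2 _ t1
  refine ⟨⟨_, s1⟩, ?_, ?_⟩
  · show part q u ≠ part q _
    rw [s2, h1]; exact h2
  · simp only [lat, Sym2.lift_mk]
    rw [s2, s3, t2, h1, add_comm (part q x)]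

theorem lat_no (q : ℕ) (hq : 1 ≤ q) : ¬ Rainbow (broom (2 * q)) (K3 q) (lat q) := by
  rintro ⟨f, hf, h1, h2⟩
  have hN : univ.filter ((K3 q).Adj (f 0)) = univ.image fun i : Fin (2 * q) => f ⟨i + 1, by omega⟩ := by
    symm
    apply eq_of_subset_of_card_le
    · intro y hy
      obtain ⟨i, -, rfl⟩ := mem_image.1 hy
      exact mem_filter.2 ⟨mem_univ _, h1 _ _ (Or.inl ⟨rfl, by simp, by simp⟩)⟩
    · rw [deg, card_image_of_injective _ fun i j h => Fin.ext (by simpa using hf h)]; simp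
  have hN' : ∀ y, (K3 q).Adj (f 0) y → ∃ i : Fin (2 * q), f ⟨i + 1, by omega⟩ = y := fun y hy => by
    have : y ∈ univ.filter ((K3 q).Adj (f 0)) := mem_filter.2 ⟨mem_univ _, hy⟩
    rw [hN] at this; simpa using this
  have hx : part q (f 0) = part q (f (Fin.last _)) := by
    by_contra h
    obtain ⟨i, hi⟩ := hN' _ h
    have := congrArg Fin.val (hf hi)
    simp at this; omega
  have hadj : (broom (2 * q)).Adj ⟨1, by omega⟩ (Fin.last _) := Or.inr (Or.inr (Or.inl ⟨rfl, rfl, by omega⟩))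
  obtain ⟨y, hy, e⟩ := lat_ex q _ _ _ hx (h1 _ _ hadj).symm
  obtain ⟨i, rfl⟩ := hN' y hy
  have := h2 (x₁ := s(0, ⟨i + 1, by omega⟩)) (x₂ := s(⟨1, by omega⟩, Fin.last _))
    (show (broom (2 * q)).Adj _ _ from Or.inl ⟨rfl, by simp, by simp⟩) hadj e
  simp [Fin.ext_iff] at this

def c0 (q a b : ℕ) : ℕ := if a = 0 then (if b < 2 * q then b - q else if b = 2 * q then q + 1 else
  if b = 3 * q - 1 then 2 * q else b) else md (3 * q - 1) (a + b)
def small (q : ℕ) : Sym2 (Fin (3 * q)) → ℕ :=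
  Sym2.lift ⟨fun a b => c0 q (min a b) (max a b), fun a b => by simp only [min_comm, max_comm]⟩

theorem small_proper (q : ℕ) (hq : 3 ≤ q) : Proper (K3 q) (small q) := proper_iff.2 fun u v w h1 h2 e => by
  have h1 : part q u ≠ part q v := h1
  have h2 : part q u ≠ part q w := h2
  have := v.2; have := u.2; have := w.2
  apply Fin.ext
  simp only [small, Sym2.lift_mk, part, c0, md] at h1 h2 e
  split_ifs at h1 h2 e <;> omega

theorem small_used (q : ℕ) (hq : 3 ≤ q) : used (K3 q) (small q) ≤ 3 * q - 1 := by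
  rw [← card_range (3 * q - 1), ← Set.ncard_coe_finset]
  refine Set.ncard_le_ncard ?_ (finite_toSet _)
  rintro _ ⟨e, he, rfl⟩
  induction e using Sym2.ind with
  | _ u v =>
    have h1 : part q u ≠ part q v := he
    have := v.2; have := u.2
    simp only [coe_range, Set.mem_Iio, small, Sym2.lift_mk, part, c0, md] at h1 ⊢
    split_ifs at h1 ⊢ <;> omega

theorem mk_rainbow {G : SimpleGraph V} [DecidableEq V] [Fintype V] [DecidableRel G.Adj] {c : Sym2 V → ℕ}
    (hc : Proper G c) {d : ℕ} {u x w : V} (hd : (univ.filter (G.Adj u)).card = d + 1) (hw : G.Adj u w)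
    (hx : G.Adj w x) (hux : u ≠ x) (hx' : ¬ G.Adj u x) (h : ∀ y, G.Adj u y → c s(u, y) ≠ c s(w, x)) :
    Rainbow (broom (d + 1)) G c := by
  obtain ⟨g, g1, g2, g3⟩ : ∃ g : Fin (d + 1) → V, Function.Injective g ∧ (∀ i, G.Adj u (g i)) ∧ g 0 = w := by
    let e := (equivFinOfCardEq hd).symm
    let w' : univ.filter (G.Adj u) := ⟨w, mem_filter.2 ⟨mem_univ _, hw⟩⟩
    exact ⟨fun i => (e (Equiv.swap 0 (e.symm w') i)).1, fun i j t => (Equiv.swap _ _).injective
      (e.injective (Subtype.ext t)), fun i => (mem_filter.1 (e _).2).2, by simp [w']⟩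
  let f : Fin (d + 1 + 2) → V := fun a => if a.val = 0 then u else if h : a.val - 1 < d + 1 then g ⟨_, h⟩ else x
  have f0 : ∀ a, a.val = 0 → f a = u := fun a h => if_pos h
  have f1 : ∀ a (h : a.val - 1 < d + 1), 1 ≤ a.val → f a = g ⟨_, h⟩ := fun a h h' => by
    simp only [f]; rw [if_neg (by omega), dif_pos h]
  have f2 : ∀ a, a.val = d + 2 → f a = x := fun a h => by
    simp only [f]; rw [if_neg (by omega), dif_neg (by omega)]
  have f3 : ∀ a, a.val = 1 → f a = w := fun a h => by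
    rw [f1 a (by omega) (by omega), ← g3]; congr 1; exact Fin.ext (by simp [h])
  have hp := proper_iff.1 hc
  have E : ∀ e ∈ (broom (d + 1)).edgeSet, (∃ i : Fin (d + 1), e = s(0, ⟨i + 1, by omega⟩) ∧ Sym2.map f e = s(u, g i)) ∨
      (e = s(⟨1, by omega⟩, Fin.last _) ∧ Sym2.map f e = s(w, x)) := by
    intro e he
    induction e using Sym2.ind with
    | _ a b =>
      have he : (a.val = 0 ∧ 1 ≤ b.val ∧ b.val ≤ d + 1) ∨ (b.val = 0 ∧ 1 ≤ a.val ∧ a.val ≤ d + 1) ∨
        (a.val = 1 ∧ b.val = d + 1 + 1 ∧ 1 ≤ d + 1) ∨ (b.val = 1 ∧ a.val = d + 1 + 1 ∧ 1 ≤ d + 1) := he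
      rcases he with ⟨t1, t2, t3⟩ | ⟨t1, t2, t3⟩ | ⟨t1, t2, -⟩ | ⟨t1, t2, -⟩
      · exact Or.inl ⟨⟨b - 1, by omega⟩, Sym2.eq_iff.2 (Or.inl ⟨Fin.ext t1, Fin.ext (Nat.sub_add_cancel t2).symm⟩),
          by rw [Sym2.map_mk, f0 a t1, f1 b (by omega) t2]⟩
      · exact Or.inl ⟨⟨a - 1, by omega⟩, Sym2.eq_iff.2 (Or.inr ⟨Fin.ext (Nat.sub_add_cancel t2).symm, Fin.ext t1⟩),
          by rw [Sym2.map_mk, f0 b t1, f1 a (by omega) t2, Sym2.eq_swap]⟩
      · exact Or.inr ⟨Sym2.eq_iff.2 (Or.inl ⟨Fin.ext t1, Fin.ext t2⟩), by rw [Sym2.map_mk, f3 a t1, f2 b t2]⟩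
      · exact Or.inr ⟨Sym2.eq_iff.2 (Or.inr ⟨Fin.ext t2, Fin.ext t1⟩),
          by rw [Sym2.map_mk, f3 b t1, f2 a t2, Sym2.eq_swap]⟩
  refine ⟨f, fun a b t => ?_, fun a b t => ?_, fun e he e' he' t => ?_⟩
  · have := a.2; have := b.2
    have ca : a.val = 0 ∨ (1 ≤ a.val ∧ a.val - 1 < d + 1) ∨ a.val = d + 2 := by omega
    have cb : b.val = 0 ∨ (1 ≤ b.val ∧ b.val - 1 < d + 1) ∨ b.val = d + 2 := by omega
    apply Fin.ext
    rcases ca with p | ⟨p, p'⟩ | p <;> rcases cb with r | ⟨r, r'⟩ | r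
    · omega
    · rw [f0 a p, f1 b r' r] at t; exact absurd t (g2 _).ne
    · rw [f0 a p, f2 b r] at t; exact absurd t hux
    · rw [f0 b r, f1 a p' p] at t; exact absurd t (g2 _).ne'
    · rw [f1 a p' p, f1 b r' r] at t; have := congrArg Fin.val (g1 t); simp at this; omega
    · rw [f1 a p' p, f2 b r] at t; exact absurd (t ▸ g2 _) hx'
    · rw [f0 b r, f2 a p] at t; exact absurd t.symm hux
    · rw [f1 b r' r, f2 a p] at t; exact absurd (t ▸ g2 _) hx'
    · omega
  · have : Sym2.map f s(a, b) ∈ G.edgeSet := by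
      rcases E s(a, b) t with ⟨i, -, e⟩ | ⟨-, e⟩ <;> rw [e]
      exacts [g2 i, hx]
    exact this
  · simp only at t
    rcases E e he with ⟨i, p, p'⟩ | ⟨p, p'⟩ <;> rcases E e' he' with ⟨j, r, r'⟩ | ⟨r, r'⟩ <;> rw [p', r'] at t
    · rw [p, r, g1 (hp _ _ _ (g2 i) (g2 j) t)]
    · exact absurd t (h _ (g2 i))
    · exact absurd t.symm (h _ (g2 j))
    · rw [p, r]

theorem many (q : ℕ) (hq : Odd q) (c : Sym2 (Fin (3 * q)) → ℕ) (hc : Proper (K3 q) c)
    (h : ¬ Rainbow (broom (2 * q)) (K3 q) c) : 3 * q ≤ used (K3 q) c := by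
  have hp := proper_iff.1 hc
  obtain ⟨k, hk⟩ := hq
  let C : Fin (3 * q) → Finset ℕ := fun u => (univ.filter ((K3 q).Adj u)).image fun v => c s(u, v)
  have hC : ∀ u, (C u).card = 2 * q := fun u => by
    rw [card_image_of_injOn fun v hv w hw e => hp u v w (mem_filter.1 hv).2 (mem_filter.1 hw).2 e, deg]
  have hsame : ∀ u x : Fin (3 * q), part q u = part q x → C x ⊆ C u := by
    intro u x e γ hγ
    by_cases hux : u = x
    · rwa [hux]
    obtain ⟨w, hw, rfl⟩ := mem_image.1 hγ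
    have hw : part q x ≠ part q w := (mem_filter.1 hw).2
    by_contra hn
    apply h
    have := mk_rainbow hc (d := 4 * k + 1) (u := u) (x := x) (w := w) (by rw [deg]; omega) (e ▸ hw :) hw.symm hux
      (fun t => t e) (fun y hy t => hn (mem_image.2 ⟨y, mem_filter.2 ⟨mem_univ _, hy⟩, by rw [t, Sym2.eq_swap]⟩))
    convert this <;> omega
  let a0 : Fin (3 * q) := ⟨0, by omega⟩
  let a1 : Fin (3 * q) := ⟨q, by omega⟩
  let a2 : Fin (3 * q) := ⟨2 * q, by omega⟩
  have hdis : Disjoint (C a0 ∩ C a1) (C a2) := by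
    rw [Finset.disjoint_left]
    intro γ h1 h2
    have hall : ∀ u, ∃ v, (K3 q).Adj u v ∧ c s(u, v) = γ := fun u => by
      have : γ ∈ C u := by
        have : part q u = part q a0 ∨ part q u = part q a1 ∨ part q u = part q a2 := by
          simp only [part, a0, a1, a2]; split_ifs <;> omega
        rcases this with t | t | t
        exacts [hsame _ _ t (mem_inter.1 h1).1, hsame _ _ t (mem_inter.1 h1).2, hsame _ _ t h2]
      simpa [C] using this
    choose p p1 p2 using hall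
    have := sum_involution (s := univ) (f := fun _ => (1 : ZMod 2)) (fun u _ => p u) (fun _ _ => rfl)
      (fun u _ _ => (p1 u).ne') (fun _ _ => mem_univ _)
      (fun u _ => hp (p u) _ _ (p1 _) (p1 u).symm (by rw [p2, Sym2.eq_swap, p2]))
    simp only [sum_const, card_univ, Fintype.card_fin, nsmul_eq_mul, mul_one, ZMod.natCast_eq_zero_iff] at this
    omega
  have hsub : ∀ S : Finset ℕ, (∀ γ ∈ S, ∃ u, γ ∈ C u) → S.card ≤ used (K3 q) c := fun S hS => by
    rw [← Set.ncard_coe_finset]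
    refine Set.ncard_le_ncard (fun γ hγ => ?_) (Set.toFinite _)
    obtain ⟨u, hu⟩ := hS γ hγ
    obtain ⟨v, hv, rfl⟩ := mem_image.1 hu
    exact ⟨_, (mem_filter.1 hv).2, rfl⟩
  have t1 := hsub (C a0 ∪ C a1) fun γ hγ => by
    rcases mem_union.1 hγ with t | t
    exacts [⟨_, t⟩, ⟨_, t⟩]
  have t2 := hsub (C a0 ∩ C a1 ∪ C a2) fun γ hγ => by
    rcases mem_union.1 hγ with t | t
    exacts [⟨_, (mem_inter.1 t).1⟩, ⟨_, t⟩]
  rw [card_union_of_disjoint hdis, hC] at t2
  have := card_union_add_card_inter (C a0) (C a1)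
  rw [hC, hC] at this
  omega

theorem broom_conn (d : ℕ) (hd : 1 ≤ d) : (broom d).Connected := by
  have h : ∀ a : Fin (d + 2), (broom d).Reachable 0 a := fun a => by
    have h1 : ∀ b : Fin (d + 2), 1 ≤ b.val → b.val ≤ d → (broom d).Reachable 0 b := fun b t1 t2 =>
      Adj.reachable (Or.inl ⟨rfl, t1, t2⟩)
    by_cases h0 : a = 0
    · rw [h0]
    have : a.val ≠ 0 := fun t => h0 (Fin.ext t)
    by_cases h2 : a.val ≤ d
    · exact h1 a (by omega) h2
    · exact (h1 ⟨1, by omega⟩ le_rfl hd).trans (Adj.reachable (Or.inr (Or.inr (Or.inl ⟨rfl, by omega, hd⟩))))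
  exact ⟨fun a b => (h a).symm.trans (h b)⟩

theorem result (N : ℕ) : ∃ n ≥ N, ∃ H : SimpleGraph (Fin n), H.Connected ∧
    ∃ (m : ℕ) (G : SimpleGraph (Fin m)), Witness H G := by
  refine ⟨2 * (2 * N + 3) + 2, by omega, broom _, broom_conn _ (by omega), _, K3 (2 * N + 3), fun c hc hu => ?_,
    lat _, lat_proper _, lat_no _ (by omega)⟩
  by_contra h
  have h1 := many _ ⟨N + 1, by ring⟩ c hc h
  have h2 : chromIndex (K3 (2 * N + 3)) ≤ _ := Nat.sInf_le ⟨_, small_proper _ (by omega), rfl⟩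
  have h3 := small_used (2 * N + 3) (by omega)
  omega

end Pool.Agent.Results.MP_1c393c_co.Brooms
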